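import Mathlib
import Pool.Agent.H258.CR.EL
import Pool.Agent.H258.CR.MU

/-!
# Every countable group embeds in an ICC group with property (T) which is not virtually
W*-superrigid: the pieces
-/

set_option autoImplicit false

namespace Pool.Agent.H193.UV

open Pool.Agent.H258.CR (MU Lam ee)

section defs
variable (k : Type) [Field k]

/-- operators on the finitely supported functions on `I` -/
abbrev OpI (I : Type) := Module.End k (I →₀ k)

noncomputable instance (I : Type) : Ring (OpI k I) := Module.End.instRing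

/-- operators with a second component, the augmentation -/
abbrev BigI (I : Type) := OpI k I × k

noncomputable instance (I : Type) : Ring (BigI k I) := Prod.instRing

variable {k}

/-- matrix units: `v ↦ v b • e_a` -/
noncomputable def mI {I : Type} (a b : I) : OpI k I := (Finsupp.lsingle a).comp (Finsupp.lapply b)

variable {Ω : Type}

/-- the inclusion of the block `n` -/
noncomputable def Jn (n : ℕ) : (Ω →₀ k) →ₗ[k] (ℕ × Ω →₀ k) :=
  Finsupp.lmapDomain k k (fun v => (n, v))

/-- the projection to the block `n` -/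
noncomputable def Qn (n : ℕ) : (ℕ × Ω →₀ k) →ₗ[k] (Ω →₀ k) :=
  Finsupp.lcomapDomain (fun v => (n, v)) (fun _ _ h => (Prod.ext_iff.1 h).2)

/-- the block `T` at the place `(n, m)` -/
noncomputable def blk (n m : ℕ) (T : OpI k Ω) : OpI k (ℕ × Ω) := (Jn n).comp (T.comp (Qn m))

/-- the weighted left shift: `(n + 1, v) ↦ (n, w n v)`, `(0, v) ↦ 0` -/
noncomputable def wX (w : ℕ → OpI k Ω) : OpI k (ℕ × Ω) :=
  Finsupp.linearCombination k (fun i : ℕ × Ω => match i with
    | (0, _) => (0 : ℕ × Ω →₀ k)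
    | (n + 1, v) => Jn n (w n (Finsupp.single v 1)))

variable (k Ω) in
/-- the right shift `(n, v) ↦ (n + 1, v)` -/
noncomputable def sY : OpI k (ℕ × Ω) :=
  Finsupp.lmapDomain k k (fun i : ℕ × Ω => (i.1 + 1, i.2))

/-- the algebra generated by the two shifts -/
noncomputable def SS (w : ℕ → OpI k Ω) : Subalgebra k (BigI k (ℕ × Ω)) :=
  Algebra.adjoin k {(wX w, (1 : k)), (sY k Ω, (1 : k))}

end defs

/-- subalgebras with matrix units -/
def S_MU : Prop := ∀ (k : Type) [Field k] (I : Type) (_ : ℕ ≃ I) (S : Subalgebra k (BigI k I)),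
  (∀ a b : I, ((mI a b : OpI k I), (0 : k)) ∈ S) → (∀ r ∈ S, r.1 = 0 → r.2 = 0) →
  Nonempty (MU k S)

/-- the blocks in the algebra generated by the shifts -/
def S_A : Prop := ∀ (k : Type) [Field k] (Ω : Type) (w : ℕ → OpI k Ω), (∀ n, w n * w n = 1) →
  (∀ n, (blk 0 0 (w n), (0 : k)) ∈ SS w) ∧
  ∀ T : OpI k Ω, (blk 0 0 T, (0 : k)) ∈ SS w → ∀ n m, (blk n m T, (0 : k)) ∈ SS w

/-- the second component is determined by the first -/
def S_B : Prop := ∀ (k : Type) [Field k] (Ω : Type) [Nonempty Ω] (w : ℕ → OpI k Ω),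
  (∀ n, (∀ j, n ≠ 4 ^ j) → w n = 1) → ∀ r ∈ SS w, r.1 = 0 → r.2 = 0

/-- Whitehead's lemma: `diag([a, b], 1, 1)` is in the elementary group -/
def S_W : Prop := ∀ (R : Type) [Ring R] (a b : Rˣ), ∃ g : Lam R,
  ((g : (Matrix (Fin 3) (Fin 3) R)ˣ) : Matrix (Fin 3) (Fin 3) R) =
    Matrix.diagonal ![((a * b * a⁻¹ * b⁻¹ : Rˣ) : R), 1, 1]

/-- every countable group is a group of commutators of permutations of `ℕ` -/
def S_P : Prop := ∀ (P : Type) [Group P] [Countable P],
  ∃ (f : P → Equiv.Perm ℕ) (t : Equiv.Perm ℕ) (c : P →* Equiv.Perm ℕ), Function.Injective c ∧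
    ∀ p, c p = f p * t * (f p)⁻¹ * t⁻¹

end Pool.Agent.H193.UV
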