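import Mathlib
import Pool.Agent.H193.UV.Stm

/-!
# The operators of the universality theorem
-/

set_option autoImplicit false
set_option linter.unusedSectionVars false

namespace Pool.Agent.H193.UV

open Finsupp

variable {k : Type} [Field k]

lemma opI_ext {I : Type} {f g : OpI k I} (h : ∀ i, f (single i 1) = g (single i 1)) : f = g := by
  apply Finsupp.lhom_ext
  intro n c
  have h1 : (single n c : I →₀ k) = c • single n 1 := by simp
  rw [h1, map_smul, map_smul, h]

lemma lin_ext {I J : Type} {f g : (I →₀ k) →ₗ[k] (J →₀ k)}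
    (h : ∀ i, f (single i 1) = g (single i 1)) : f = g := by
  apply Finsupp.lhom_ext
  intro n c
  have h1 : (single n c : I →₀ k) = c • single n 1 := by simp
  rw [h1, map_smul, map_smul, h]

lemma mI_single {I : Type} [DecidableEq I] (a b n : I) :
    (mI a b : OpI k I) (single n 1) = if n = b then single a 1 else 0 := by
  show single a ((single n (1 : k) : I →₀ k) b) = _
  rw [Finsupp.single_apply]
  split_ifs <;> simp

section blocks
variable {Ω : Type}

lemma Jn_single (n : ℕ) (v : Ω) : Jn (k := k) n (single v 1) = single (n, v) 1 := by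
  simp [Jn]

lemma Qn_single (n m : ℕ) (v : Ω) : Qn (k := k) n (single (m, v) 1) =
    if m = n then single v 1 else 0 := by
  classical
  ext u
  show (single (m, v) (1 : k) : ℕ × Ω →₀ k) (n, u) = _
  rw [Finsupp.single_apply]
  by_cases h : m = n
  · subst h
    by_cases h2 : v = u
    · subst h2; simp
    · simp [h2]
  · simp [h]

lemma QJ (n : ℕ) (u : Ω →₀ k) : Qn n (Jn n u) = u := by
  have : (Qn (k := k) (Ω := Ω) n).comp (Jn n) = LinearMap.id := by
    apply lin_ext
    intro i
    rw [LinearMap.comp_apply, Jn_single, Qn_single, if_pos rfl]; rfl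
  exact LinearMap.congr_fun this u

lemma blk_add (n m : ℕ) (S T : OpI k Ω) : blk n m (S + T) = blk n m S + blk n m T := by
  apply LinearMap.ext
  intro v
  show Jn n ((S + T) (Qn m v)) = Jn n (S (Qn m v)) + Jn n (T (Qn m v))
  rw [LinearMap.add_apply, map_add]

lemma blk_mul (n m l : ℕ) (S T : OpI k Ω) : blk n m S * blk m l T = blk n l (S * T) := by
  apply LinearMap.ext
  intro v
  show Jn n (S (Qn m (Jn m (T (Qn l v))))) = Jn n (S (T (Qn l v)))
  rw [QJ]

lemma blk_inj {S T : OpI k Ω} (h : blk 0 0 S = blk 0 0 T) : S = T := by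
  apply LinearMap.ext
  intro v
  have h1 := LinearMap.congr_fun h (Jn 0 v)
  have h2 := congrArg (Qn 0) h1
  have h3 : ∀ A : OpI k Ω, Qn 0 ((blk 0 0 A) (Jn 0 v)) = A v := by
    intro A
    show Qn 0 (Jn 0 (A (Qn 0 (Jn 0 v)))) = A v
    rw [QJ, QJ]
  rwa [h3, h3] at h2

lemma blk_mI (n m : ℕ) (u v : Ω) : blk n m (mI u v : OpI k Ω) = mI (n, u) (m, v) := by
  classical
  apply opI_ext
  rintro ⟨l, x⟩
  show Jn n ((mI u v) (Qn m (single (l, x) 1))) = _
  rw [Qn_single, mI_single]
  by_cases h : l = m
  · subst h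
    rw [if_pos rfl, mI_single]
    by_cases h2 : x = v
    · subst h2; simp [Jn_single]
    · simp [h2]
  · simp [h]

end blocks

/-! ### the doubling `Ω = ℕ × Bool` -/

section dbl

/-- inclusion of a copy -/
noncomputable def jj (s : Bool) : (ℕ →₀ k) →ₗ[k] (ℕ × Bool →₀ k) :=
  Finsupp.lmapDomain k k (fun a => (a, s))

/-- projection to a copy -/
noncomputable def qq (s : Bool) : (ℕ × Bool →₀ k) →ₗ[k] (ℕ →₀ k) :=
  Finsupp.lcomapDomain (fun a => (a, s)) (fun _ _ h => (Prod.ext_iff.1 h).1)

lemma jj_single (s : Bool) (a : ℕ) : jj (k := k) s (single a 1) = single (a, s) 1 := by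
  simp [jj]

lemma qq_single (s r : Bool) (a : ℕ) : qq (k := k) s (single (a, r) 1) =
    if r = s then single a 1 else 0 := by
  classical
  ext b
  show (single (a, r) (1 : k) : ℕ × Bool →₀ k) (b, s) = _
  rw [Finsupp.single_apply]
  by_cases h : r = s
  · subst h
    by_cases h2 : a = b
    · subst h2; simp
    · simp [h2]
  · simp [h]

lemma qj (s r : Bool) (u : ℕ →₀ k) : qq s (jj r u) = if r = s then u else 0 := by
  have : (qq (k := k) s).comp (jj r) = if r = s then LinearMap.id else 0 := by
    apply lin_ext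
    intro i
    rw [LinearMap.comp_apply, jj_single, qq_single]
    split_ifs <;> rfl
  have h := LinearMap.congr_fun this u
  rw [LinearMap.comp_apply] at h
  rw [h]
  split_ifs <;> rfl

/-- `D` from the copy `s` to the copy `r` -/
noncomputable def db (r s : Bool) (D : OpI k ℕ) : OpI k (ℕ × Bool) := (jj r).comp (D.comp (qq s))

lemma db_mul (r s l : Bool) (D E : OpI k ℕ) : db r s D * db s l E = db r l (D * E) := by
  apply LinearMap.ext
  intro v
  show jj r (D (qq s (jj s (E (qq l v))))) = jj r (D (E (qq l v)))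
  rw [qj, if_pos rfl]

lemma db_mul_ne {s s' : Bool} (h : s' ≠ s) (r l : Bool) (D E : OpI k ℕ) :
    db r s D * db s' l E = 0 := by
  apply LinearMap.ext
  intro v
  show jj r (D (qq s (jj s' (E (qq l v))))) = 0
  rw [qj, if_neg h, map_zero, map_zero]

lemma db_add (r s : Bool) (D E : OpI k ℕ) : db r s (D + E) = db r s D + db r s E := by
  apply LinearMap.ext
  intro v
  show jj r ((D + E) (qq s v)) = jj r (D (qq s v)) + jj r (E (qq s v))
  rw [LinearMap.add_apply, map_add]

lemma db_mI (r s : Bool) (a b : ℕ) : db r s (mI a b : OpI k ℕ) = mI (a, r) (b, s) := by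
  classical
  apply opI_ext
  rintro ⟨x, l⟩
  show jj r ((mI a b) (qq s (single (x, l) 1))) = _
  rw [qq_single, mI_single]
  by_cases h : l = s
  · subst h
    rw [if_pos rfl, mI_single]
    by_cases h2 : x = b
    · subst h2; simp [jj_single]
    · simp [h2]
  · simp [h]

lemma db_inj {D E : OpI k ℕ} (h : db false false D = db false false E) : D = E := by
  apply LinearMap.ext
  intro v
  have h1 := LinearMap.congr_fun h (jj false v)
  have h2 := congrArg (qq false) h1
  have h3 : ∀ A : OpI k ℕ, qq false ((db false false A) (jj false v)) = A v := by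
    intro A
    show qq false (jj false (A (qq false (jj false v)))) = A v
    rw [qj, if_pos rfl, qj, if_pos rfl]
  rwa [h3, h3] at h2

end dbl

/-! ### permutations -/

/-- the operator of a permutation -/
noncomputable def pe (π : Equiv.Perm ℕ) : OpI k ℕ := Finsupp.lmapDomain k k π

lemma pe_single (π : Equiv.Perm ℕ) (a : ℕ) : pe (k := k) π (single a 1) = single (π a) 1 := by
  simp [pe]

lemma pe_mul (π π' : Equiv.Perm ℕ) : pe (k := k) (π * π') = pe π * pe π' := by
  apply opI_ext
  intro i
  show _ = pe π (pe π' (single i 1))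
  rw [pe_single, pe_single, pe_single]; rfl

lemma pe_one : pe (k := k) 1 = 1 := by
  apply opI_ext
  intro i
  rw [pe_single]; rfl

lemma pe_inj {π π' : Equiv.Perm ℕ} (h : pe (k := k) π = pe π') : π = π' := by
  apply Equiv.ext
  intro a
  have h1 := LinearMap.congr_fun h (single a 1)
  rw [pe_single, pe_single] at h1
  exact (Finsupp.single_left_injective (one_ne_zero)) h1

end Pool.Agent.H193.UV
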