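import Mathlib
import Pool.Agent.H193.UV.Ops
import Pool.Agent.H258.CR.Main

/-!
# Every countable group embeds in an ICC group with property (T) which is not virtually
W*-superrigid: assembly
-/

set_option autoImplicit false
set_option linter.unusedSectionVars false

namespace Pool.Agent.H193.UV

open Pool.Agent Pool.Agent.Y276.Rig Pool.Agent.H258.CR
open SemidirectProduct

/-! ### the weights -/

section wts
variable {k : Type} [Field k]

/-- the weights: `1 + (square zero)` at the powers of 4 -/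
noncomputable def wt (D : ℕ → OpI k ℕ) (n : ℕ) : OpI k (ℕ × Bool) :=
  open Classical in
  if n = 4 ^ 0 then 1 + db true false 1 else
  if h : ∃ j, n = 4 ^ (j + 1) then 1 + db false true (D h.choose) else 1

lemma wt_zero (D : ℕ → OpI k ℕ) : wt D 0 = 1 := by
  unfold wt
  rw [if_neg (by norm_num), dif_neg]
  rintro ⟨j, h⟩
  have : 0 < 4 ^ (j + 1) := by positivity
  omega

lemma wt_one (D : ℕ → OpI k ℕ) : wt D 1 = 1 + db true false 1 := by
  unfold wt
  rw [if_pos (by norm_num)]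

lemma wt_pow (D : ℕ → OpI k ℕ) (j : ℕ) : wt D (4 ^ (j + 1)) = 1 + db false true (D j) := by
  unfold wt
  have h1 : (4 : ℕ) ^ (j + 1) ≠ 4 ^ 0 := by
    intro h
    have := Nat.pow_right_injective (le_refl 4 |>.trans' (by norm_num) : 2 ≤ 4) h
    omega
  have h2 : ∃ i, (4 : ℕ) ^ (j + 1) = 4 ^ (i + 1) := ⟨j, rfl⟩
  rw [if_neg h1, dif_pos h2]
  have h3 := Nat.pow_right_injective (le_refl 4 |>.trans' (by norm_num) : 2 ≤ 4) h2.choose_spec
  have h4 : h2.choose = j := by omega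
  rw [h4]

lemma wt_other (D : ℕ → OpI k ℕ) (n : ℕ) (h : ∀ j, n ≠ 4 ^ j) : wt D n = 1 := by
  unfold wt
  rw [if_neg (h 0), dif_neg]
  rintro ⟨j, hj⟩
  exact h _ hj

lemma sq_one {I : Type} (h2 : ∀ r : k, r + r = 0) (N : OpI k I) (hN : N * N = 0) :
    (1 + N) * (1 + N) = 1 := by
  have h3 : N + N = 0 := by
    apply LinearMap.ext
    intro v
    rw [LinearMap.add_apply]
    apply Finsupp.ext
    intro i
    exact h2 _
  rw [add_mul, mul_add, mul_add, one_mul, mul_one, one_mul, hN, add_zero, add_assoc, h3, add_zero]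

lemma wt_sq (h2 : ∀ r : k, r + r = 0) (D : ℕ → OpI k ℕ) (n : ℕ) : wt D n * wt D n = 1 := by
  by_cases h : ∀ j, n ≠ 4 ^ j
  · rw [wt_other D n h, one_mul]
  · push Not at h
    obtain ⟨j, rfl⟩ := h
    cases j with
    | zero =>
      rw [pow_zero, wt_one]
      exact sq_one h2 _ (db_mul_ne (by decide) _ _ _ _)
    | succ j =>
      rw [wt_pow]
      exact sq_one h2 _ (db_mul_ne (by decide) _ _ _ _)

end wts

/-! ### elements of the algebra -/

section els
variable {k : Type} [Field k] (D : ℕ → OpI k ℕ)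

/-- the algebra -/
noncomputable abbrev Al : Subalgebra k (BigI k (ℕ × (ℕ × Bool))) := SS (wt D)

lemma mem_sub {w : ℕ → OpI k (ℕ × Bool)} {S T : OpI k (ℕ × Bool)}
    (h1 : ((blk 0 0 S : OpI k (ℕ × (ℕ × Bool))), (0 : k)) ∈ SS w)
    (h2 : ((blk 0 0 (S + T) : OpI k (ℕ × (ℕ × Bool))), (0 : k)) ∈ SS w) :
    ((blk 0 0 T : OpI k (ℕ × (ℕ × Bool))), (0 : k)) ∈ SS w := by
  have h3 := sub_mem h2 h1
  have h4 : ((blk 0 0 (S + T) : OpI k (ℕ × (ℕ × Bool))), (0 : k)) - (blk 0 0 S, 0) =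
      (blk 0 0 T, 0) := by
    rw [blk_add]
    apply Prod.ext
    · show blk 0 0 S + blk 0 0 T - blk 0 0 S = blk 0 0 T
      abel
    · show (0 : k) - 0 = 0
      rw [sub_zero]
  rwa [h4] at h3

lemma mem_mul {w : ℕ → OpI k (ℕ × Bool)} {S T : OpI k (ℕ × Bool)}
    (h1 : ((blk 0 0 S : OpI k (ℕ × (ℕ × Bool))), (0 : k)) ∈ SS w)
    (h2 : ((blk 0 0 T : OpI k (ℕ × (ℕ × Bool))), (0 : k)) ∈ SS w) :
    ((blk 0 0 (S * T) : OpI k (ℕ × (ℕ × Bool))), (0 : k)) ∈ SS w := by
  have h3 := mul_mem h1 h2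
  have h4 : ((blk 0 0 S : OpI k (ℕ × (ℕ × Bool))), (0 : k)) * (blk 0 0 T, 0) =
      (blk 0 0 (S * T), 0) := by
    apply Prod.ext
    · exact blk_mul 0 0 0 S T
    · show (0 : k) * 0 = 0
      rw [mul_zero]
  rwa [h4] at h3

variable {D} (hA : S_A) (h2 : ∀ r : k, r + r = 0)
include hA h2

lemma one_mem_blk : ((blk 0 0 (1 : OpI k (ℕ × Bool)) : OpI k (ℕ × (ℕ × Bool))), (0 : k)) ∈ Al D := by
  have h := (hA k (ℕ × Bool) (wt D) (wt_sq h2 D)).1 0
  rwa [wt_zero] at h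

lemma Nm_mem : ((blk 0 0 (db true false (1 : OpI k ℕ)) : OpI k (ℕ × (ℕ × Bool))), (0 : k)) ∈
    Al D := by
  have h := (hA k (ℕ × Bool) (wt D) (wt_sq h2 D)).1 1
  rw [wt_one] at h
  exact mem_sub (one_mem_blk hA h2) h

lemma Nd_mem (j : ℕ) : ((blk 0 0 (db false true (D j)) : OpI k (ℕ × (ℕ × Bool))), (0 : k)) ∈
    Al D := by
  have h := (hA k (ℕ × Bool) (wt D) (wt_sq h2 D)).1 (4 ^ (j + 1))
  rw [wt_pow] at h
  exact mem_sub (one_mem_blk hA h2) h

lemma D_mem (j : ℕ) : ((blk 0 0 (db false false (D j)) : OpI k (ℕ × (ℕ × Bool))), (0 : k)) ∈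
    Al D := by
  have h := mem_mul (Nd_mem hA h2 j) (Nm_mem (D := D) hA h2)
  rwa [db_mul, mul_one] at h

lemma mI_mem (hD : ∀ a b : ℕ, ∃ j, D j = mI a b) (a b : ℕ × (ℕ × Bool)) :
    ((mI a b : OpI k (ℕ × (ℕ × Bool))), (0 : k)) ∈ Al D := by
  obtain ⟨n, a, r⟩ := a
  obtain ⟨m, b, s⟩ := b
  obtain ⟨j, hj⟩ := hD a b
  have key : ((blk 0 0 (mI (a, r) (b, s) : OpI k (ℕ × Bool)) : OpI k (ℕ × (ℕ × Bool))), (0 : k)) ∈
      Al D := by
    rw [← db_mI]
    rw [← hj]
    have h1 := D_mem (D := D) hA h2 j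
    have h3 := Nd_mem (D := D) hA h2 j
    have h4 := Nm_mem (D := D) hA h2
    cases r <;> cases s
    · exact h1
    · exact h3
    · have := mem_mul h4 h1
      rwa [db_mul, one_mul] at this
    · have := mem_mul h4 h3
      rwa [db_mul, one_mul] at this
  have h5 := (hA k (ℕ × Bool) (wt D) (wt_sq h2 D)).2 _ key n m
  rwa [blk_mI] at h5

end els

/-! ### generation and countability -/

section gen
variable {k : Type} [Field k] {Ω : Type} (w : ℕ → OpI k Ω)

noncomputable def xs : SS w := ⟨(wX w, 1), Algebra.subset_adjoin (by simp)⟩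
noncomputable def ys : SS w := ⟨(sY k Ω, 1), Algebra.subset_adjoin (by simp)⟩

lemma SS_gen : Algebra.adjoin k {xs w, ys w} = (⊤ : Subalgebra k (SS w)) := by
  have h := Algebra.adjoin_adjoin_coe_preimage (R := k)
    (s := ({(wX w, (1 : k)), (sY k Ω, (1 : k))} : Set (BigI k (ℕ × Ω))))
  have h2 : (((↑) : Algebra.adjoin k ({(wX w, (1 : k)), (sY k Ω, (1 : k))} :
      Set (BigI k (ℕ × Ω))) → BigI k (ℕ × Ω)) ⁻¹' {(wX w, (1 : k)), (sY k Ω, (1 : k))}) =
      ({xs w, ys w} : Set (SS w)) := by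
    ext x
    simp only [Set.mem_preimage, Set.mem_insert_iff, Set.mem_singleton_iff]
    constructor
    · rintro (h | h)
      · exact Or.inl (Subtype.ext h)
      · exact Or.inr (Subtype.ext h)
    · rintro (h | h)
      · exact Or.inl (congrArg Subtype.val h)
      · exact Or.inr (congrArg Subtype.val h)
  rw [← h2]
  exact h

lemma SS_countable [Finite k] : Countable (SS w) := by
  rw [← Cardinal.mk_le_aleph0_iff]
  refine (Algebra.cardinalMk_adjoin_le k
    ({(wX w, (1 : k)), (sY k Ω, (1 : k))} : Set (BigI k (ℕ × Ω)))).trans ?_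
  refine sup_le (sup_le ?_ ?_) le_rfl
  · exact Cardinal.mk_le_aleph0_iff.2 inferInstance
  · exact Cardinal.mk_le_aleph0_iff.2 (Set.toFinite _).countable.to_subtype

end gen

end Pool.Agent.H193.UV
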