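import Mathlib
import Pool.Agent.H193.UV.Main

/-!
# Every countable group embeds in an ICC group with property (T) which is not virtually
W*-superrigid: the embedding and the theorem
-/

set_option autoImplicit false
set_option linter.unusedSectionVars false

namespace Pool.Agent.H193.UV

open Pool.Agent Pool.Agent.Y276.Rig Pool.Agent.H258.CR
open SemidirectProduct

section units
variable {k : Type} [Field k] {w : ℕ → OpI k (ℕ × Bool)}

/-- the corner embedding -/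
noncomputable def kp (T : OpI k ℕ) : OpI k (ℕ × (ℕ × Bool)) := blk 0 0 (db false false T)

lemma kp_mul (S T : OpI k ℕ) : kp S * kp T = kp (S * T) := by
  unfold kp
  rw [blk_mul, db_mul]

lemma kp_inj {S T : OpI k ℕ} (h : kp S = kp T) : S = T := db_inj (blk_inj h)

/-- `1` outside the corner and `T` in the corner -/
noncomputable def Eb (T : OpI k ℕ) : BigI k (ℕ × (ℕ × Bool)) := (1 - kp 1 + kp T, 1)

lemma Eb_mul (S T : OpI k ℕ) : Eb S * Eb T = Eb (S * T) := by
  apply Prod.ext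
  · show (1 - kp 1 + kp S) * (1 - kp 1 + kp T) = 1 - kp 1 + kp (S * T)
    have h1 : (1 - kp 1 + kp S) * (1 - kp 1 + kp T) = 1 - kp 1 + kp T - kp 1 + kp 1 * kp 1 -
        kp 1 * kp T + (kp S - kp S * kp 1 + kp S * kp T) := by noncomm_ring
    rw [h1, kp_mul, kp_mul, kp_mul, kp_mul, one_mul, one_mul, mul_one]
    abel
  · show (1 : k) * 1 = 1
    rw [one_mul]

lemma Eb_one : Eb (k := k) 1 = 1 := by
  apply Prod.ext
  · show 1 - kp 1 + kp 1 = (1 : OpI k (ℕ × (ℕ × Bool)))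
    abel
  · rfl

lemma Eb_inj {S T : OpI k ℕ} (h : Eb S = Eb T) : S = T := by
  have h1 : (1 - kp 1 + kp S : OpI k (ℕ × (ℕ × Bool))) = 1 - kp 1 + kp T := congrArg Prod.fst h
  exact kp_inj (add_left_cancel h1)

lemma Eb_mem {T : OpI k ℕ} (h1 : ((kp 1 : OpI k (ℕ × (ℕ × Bool))), (0 : k)) ∈ SS w)
    (hT : ((kp T : OpI k (ℕ × (ℕ × Bool))), (0 : k)) ∈ SS w) : Eb T ∈ SS w := by
  have h2 := add_mem (sub_mem (one_mem (SS w)) h1) hT
  have h3 : (1 : BigI k (ℕ × (ℕ × Bool))) - (kp 1, 0) + (kp T, 0) = Eb T := by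
    apply Prod.ext
    · rfl
    · show (1 : k) - 0 + 0 = 1
      rw [sub_zero, add_zero]
  rwa [h3] at h2

end units

theorem final (hMU : S_MU) (hA : S_A) (hB : S_B) (hW : S_W) (hP : S_P)
    (k : Type) [Field k] [Fintype k] [CharP k 2] (hcard : Nat.card k = 8)
    (P : Type) [Group P] [Countable P] :
    ∃ (G : ℕ → Type) (_ : ∀ n, Group (G n)),
      (∀ n, Countable (G n) ∧ IsIcc (G n) ∧ PropertyT (G n) ∧
        ∃ φ : P →* G n, Function.Injective φ) ∧
      (∀ n m, SameGroupAlgebra (G n) (G m) ∧ SameVN (G n) (G m)) ∧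
      ∀ n m, n ≠ m → ¬ VirtuallyIsomorphic (G n) (G m) := by
  classical
  have hk8 : Fintype.card k = 8 := by rw [← Nat.card_eq_fintype_card, hcard]
  have hk : 7 ≤ Fintype.card k := by omega
  have h2 : ∀ r : k, r + r = 0 := fun r => CharTwo.add_self_eq_zero r
  obtain ⟨f, t, c, hc, hfc⟩ := hP P
  -- the countable set of operators
  let F : Set (Equiv.Perm ℕ) := Set.range f ∪ Set.range (fun p => (f p)⁻¹) ∪ {t, t⁻¹}
  have hFc : F.Countable := ((Set.countable_range _).union (Set.countable_range _)).union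
    (Set.toFinite _).countable
  let O : Set (OpI k ℕ) := Set.range (fun ab : ℕ × ℕ => mI ab.1 ab.2) ∪ (fun π => pe π) '' F
  have hOc : O.Countable := (Set.countable_range _).union (hFc.image _)
  obtain ⟨D, hD⟩ := hOc.exists_eq_range ⟨mI 0 0, Or.inl ⟨(0, 0), rfl⟩⟩
  have hDm : ∀ a b : ℕ, ∃ j, D j = mI a b := by
    intro a b
    have : (mI a b : OpI k ℕ) ∈ O := Or.inl ⟨(a, b), rfl⟩
    rw [hD] at this
    exact this
  have hDp : ∀ π ∈ F, ((kp (pe π) : OpI k (ℕ × (ℕ × Bool))), (0 : k)) ∈ Al D := by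
    intro π hπ
    have : (pe π : OpI k ℕ) ∈ O := Or.inr ⟨π, hπ, rfl⟩
    rw [hD] at this
    obtain ⟨j, hj⟩ := this
    rw [← hj]
    exact D_mem hA h2 j
  have ht : t ∈ F := Or.inr (by simp)
  have ht' : t⁻¹ ∈ F := Or.inr (by simp)
  have hf : ∀ p, f p ∈ F := fun p => Or.inl (Or.inl ⟨p, rfl⟩)
  have hf' : ∀ p, (f p)⁻¹ ∈ F := fun p => Or.inl (Or.inr ⟨p, rfl⟩)
  have h1 : ((kp 1 : OpI k (ℕ × (ℕ × Bool))), (0 : k)) ∈ Al D := by
    have h3 := mul_mem (hDp t ht) (hDp _ ht')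
    have h4 : ((kp (pe t) : OpI k (ℕ × (ℕ × Bool))), (0 : k)) * (kp (pe t⁻¹), 0) = (kp 1, 0) := by
      apply Prod.ext
      · show kp (pe t) * kp (pe t⁻¹) = kp 1
        rw [kp_mul, ← pe_mul, mul_inv_cancel, pe_one]
      · show (0 : k) * 0 = 0
        rw [mul_zero]
    rwa [h4] at h3
  -- the ring
  have hs : ∀ r ∈ Al D, r.1 = 0 → r.2 = 0 :=
    hB k (ℕ × Bool) (wt D) (fun n hn => wt_other D n hn)
  obtain ⟨hden⟩ := nonempty_denumerable (ℕ × (ℕ × Bool))
  obtain ⟨U⟩ := hMU k (ℕ × (ℕ × Bool)) (Denumerable.eqv (ℕ × (ℕ × Bool))).symm (Al D)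
    (mI_mem hA h2 hDm) hs
  have hcR : Countable (Al D) := SS_countable _
  have h2R : ∀ r : Al D, r + r = 0 := by
    intro r
    have h : (2 : k) • r = 0 := by
      rw [show (2 : k) = 0 from CharTwo.two_eq_zero, zero_smul]
    rwa [two_smul] at h
  -- the units
  let un : ∀ π : Equiv.Perm ℕ, π ∈ F → π⁻¹ ∈ F → (Al D)ˣ := fun π hπ hπ' =>
    { val := ⟨Eb (pe π), Eb_mem h1 (hDp π hπ)⟩
      inv := ⟨Eb (pe π⁻¹), Eb_mem h1 (hDp _ hπ')⟩
      val_inv := by
        apply Subtype.ext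
        show Eb (pe π) * Eb (pe π⁻¹) = 1
        rw [Eb_mul, ← pe_mul, mul_inv_cancel, pe_one, Eb_one]
      inv_val := by
        apply Subtype.ext
        show Eb (pe π⁻¹) * Eb (pe π) = 1
        rw [Eb_mul, ← pe_mul, inv_mul_cancel, pe_one, Eb_one] }
  have hun : ∀ p, (((un (f p) (hf p) (hf' p)) * (un t ht ht') * (un (f p) (hf p) (hf' p))⁻¹ *
      (un t ht ht')⁻¹ : (Al D)ˣ) : Al D).1 = Eb (pe (c p)) := by
    intro p
    show Eb (pe (f p)) * Eb (pe t) * Eb (pe (f p)⁻¹) * Eb (pe t⁻¹) = _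
    rw [Eb_mul, Eb_mul, Eb_mul, ← pe_mul, ← pe_mul, ← pe_mul, hfc]
  choose g hg using fun p => hW (Al D) (un (f p) (hf p) (hf' p)) (un t ht ht')
  have hval : ∀ a b : Lam (Al D), ((a : (Matrix (Fin 3) (Fin 3) (Al D))ˣ) :
      Matrix (Fin 3) (Fin 3) (Al D)) = ((b : (Matrix (Fin 3) (Fin 3) (Al D))ˣ) :
      Matrix (Fin 3) (Fin 3) (Al D)) → a = b := fun a b h => Subtype.ext (Units.ext h)
  have hE : ∀ p, ∃ e : Al D, e.1 = Eb (pe (c p)) ∧ ((g p : (Matrix (Fin 3) (Fin 3) (Al D))ˣ) :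
      Matrix (Fin 3) (Fin 3) (Al D)) = Matrix.diagonal ![e, 1, 1] := fun p => ⟨_, hun p, hg p⟩
  choose e he hge using hE
  have hmul : ∀ p q, g (p * q) = g p * g q := by
    intro p q
    apply hval
    rw [Subgroup.coe_mul, Units.val_mul, hge, hge, hge, Matrix.diagonal_mul_diagonal]
    congr 1
    funext i
    fin_cases i
    · show e (p * q) = e p * e q
      apply Subtype.ext
      show (e (p * q)).1 = (e p).1 * (e q).1
      rw [he, he, he, Eb_mul, ← pe_mul, map_mul]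
    · show (1 : Al D) = 1 * 1
      rw [one_mul]
    · show (1 : Al D) = 1 * 1
      rw [one_mul]
  let φ : P →* Lam (Al D) := MonoidHom.mk' g hmul
  have hφ : Function.Injective φ := by
    intro p q hpq
    have h3 : g p = g q := hpq
    have h4 := congrArg (fun a : Lam (Al D) => ((a : (Matrix (Fin 3) (Fin 3) (Al D))ˣ) :
      Matrix (Fin 3) (Fin 3) (Al D)) 0 0) h3
    simp only [hge, Matrix.diagonal_apply_eq] at h4
    have h5 : e p = e q := h4
    have h6 : Eb (pe (k := k) (c p)) = Eb (pe (c q)) := by rw [← he, ← he, h5]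
    exact hc (pe_inj (Eb_inj h6))
  have hicc : ∀ n, IsIcc (Gr U n) := fun n z hz => icc_Gp U (pA U n) h2R hcard _ z hz
  refine ⟨fun n => Gr U n, fun n => inferInstance, fun n => ⟨Gp_countable _ _, hicc n,
    T_Gp _ _ (SS_gen (wt D)) h2R hk, (inr : Lam (Al D) →* Gr U n).comp φ,
    inr_injective.comp hφ⟩, fun n m => ?_, fun n m hnm hvi => ?_⟩
  · let t := Twist.comp (twistP _ (pA_smul U n)) (twistP _ (pA_smul U m))
    refine ⟨⟨algEq t, algEq_trace t, ?_⟩, sameVN t⟩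
    intro x y hxy h
    have h1 : y = invo x := by
      apply MonoidAlgebra.ext
      ext g
      rw [hxy, invo_coeff]
    rw [h1, algEq_invo, invo_coeff]
  · obtain ⟨H, H', hH, hH', ⟨e⟩⟩ := vi_icc (hicc n) (hicc m) hvi
    exact hnm (le_antisymm (le_of_equiv _ h2R hcard n m H H' hH hH' e)
      (le_of_equiv _ h2R hcard m n H' H hH' hH e.symm))

end Pool.Agent.H193.UV
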